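import Pool.Agent.SCT.StmtsC

namespace Pool.Agent.SCT.H3

open Cardinal

theorem alg_iff {k A B : Type} [Field k] [Field A] [Field B] [Algebra k A] [Algebra k B]
    (f : A →ₐ[k] B) (s : Set A) (x : A) :
    IsAlgebraic (Algebra.adjoin k (f '' s)) (f x) ↔ IsAlgebraic (Algebra.adjoin k s) x := by
  have hinj : Function.Injective f := f.injective
  have hm : (Algebra.adjoin k s).map f = Algebra.adjoin k (f '' s) := AlgHom.map_adjoin f s
  rw [← hm]
  exact isAlgebraic_ringHom_iff_of_comp_eq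
    (Subalgebra.equivMapOfInjective (Algebra.adjoin k s) f hinj) f hinj (by ext; rfl)

theorem mem_alg {k Ω : Type} [Field k] [Field Ω] [Algebra k Ω] (B : Set Ω)
    (C D : IntermediateField k Ω) (hC : ∀ x ∈ C, IsAlgebraic (Algebra.adjoin k B) x)
    (hD : ∀ x ∈ D, IsAlgebraic (Algebra.adjoin k B) x) :
    ∀ x ∈ C ⊔ D, IsAlgebraic (Algebra.adjoin k B) x := by
  let T : IntermediateField k Ω :=
    { (Subalgebra.algebraicClosure (Algebra.adjoin k B) Ω).restrictScalars k with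
      inv_mem' := fun x hx => IsAlgebraic.inv hx }
  have h1 : C ≤ T := fun x hx => hC x hx
  have h2 : D ≤ T := fun x hx => hD x hx
  intro x hx
  exact (sup_le h1 h2) hx

theorem mono_alg {k Ω : Type} [Field k] [Field Ω] [Algebra k Ω] {B B' : Set Ω} (h : B ⊆ B') {x : Ω}
    (hx : IsAlgebraic (Algebra.adjoin k B) x) : IsAlgebraic (Algebra.adjoin k B') x := by
  have hle : Algebra.adjoin k B ≤ Algebra.adjoin k B' := Algebra.adjoin_mono h
  exact hx.ringHom_of_comp_eq (Subalgebra.inclusion hle) (RingHom.id Ω)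
    (Subalgebra.inclusion_injective hle) (by ext; rfl)

theorem base {k Ω : Type} [Field k] [Field Ω] [Algebra k Ω] (C : IntermediateField k Ω) :
    ∃ B : Set Ω, B ⊆ C ∧ #B ≤ Algebra.trdeg k C ∧
      ∀ x ∈ C, IsAlgebraic (Algebra.adjoin k B) x := by
  obtain ⟨s, hs⟩ := exists_isTranscendenceBasis k C
  refine ⟨C.val '' s, ?_, ?_, ?_⟩
  · rintro _ ⟨y, -, rfl⟩
    exact y.2
  · rw [← hs.cardinalMk_eq_trdeg]
    exact Cardinal.mk_image_le
  · intro x hx
    have h1 := hs.isAlgebraic.isAlgebraic (⟨x, hx⟩ : C)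
    rw [Subtype.range_coe] at h1
    exact (alg_iff C.val s ⟨x, hx⟩).2 h1

theorem sup : SupStmt := by
  intro k Ω _ _ _ C1 C2 a b h1 h2
  obtain ⟨B1, hB1, hc1, ha1⟩ := base C1
  obtain ⟨B2, hB2, hc2, ha2⟩ := base C2
  have hall := mem_alg (B1 ∪ B2) C1 C2
    (fun x hx => mono_alg Set.subset_union_left (ha1 x hx))
    (fun x hx => mono_alg Set.subset_union_right (ha2 x hx))
  have hBL : B1 ∪ B2 ⊆ (C1 ⊔ C2 : IntermediateField k Ω) := by
    rintro x (hx | hx)
    · exact (le_sup_left : C1 ≤ C1 ⊔ C2) (hB1 hx)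
    · exact (le_sup_right : C2 ≤ C1 ⊔ C2) (hB2 hx)
  let L : IntermediateField k Ω := C1 ⊔ C2
  let s : Set L := L.val ⁻¹' (B1 ∪ B2)
  have himg : L.val '' s = B1 ∪ B2 := by
    ext x
    constructor
    · rintro ⟨y, hy, rfl⟩
      exact hy
    · intro hx
      exact ⟨⟨x, hBL hx⟩, hx, rfl⟩
  have halg : Algebra.IsAlgebraic (Algebra.adjoin k s) L := by
    refine ⟨fun y => ?_⟩
    have h3 := hall y.1 y.2
    rw [← himg] at h3
    exact (alg_iff L.val s y).1 h3
  have h4 : Algebra.trdeg k L ≤ #s := Algebra.IsAlgebraic.trdeg_le_cardinalMk k s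
  have h5 : #s = #(B1 ∪ B2 : Set Ω) := by
    rw [← himg]
    exact (Cardinal.mk_image_eq L.val.injective).symm
  have h6 : #(B1 ∪ B2 : Set Ω) ≤ #B1 + #B2 := Cardinal.mk_union_le B1 B2
  have h7 : (#B1 + #B2 : Cardinal) ≤ (a : Cardinal) + (b : Cardinal) :=
    add_le_add (hc1.trans h1) (hc2.trans h2)
  calc Algebra.trdeg k L ≤ #s := h4
    _ = #(B1 ∪ B2 : Set Ω) := h5
    _ ≤ #B1 + #B2 := h6
    _ ≤ (a : Cardinal) + (b : Cardinal) := h7
    _ = ((a + b : ℕ) : Cardinal) := by push_cast; rfl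

end Pool.Agent.SCT.H3
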